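import Pool.Agent.Helper87.MD.Goals

/-! Packet MD-LAT: the lattice lemma. -/

set_option autoImplicit false

open Finset
open scoped Classical

namespace Pool.Agent.Helper61.MD

open Pool.Agent.Helper98.Lang Pool.Agent.Helper87.MD

theorem nd_le (y : ℝ) (n : ℤ) : nd y ≤ |y - n| := round_le y n

theorem nd_nonneg (y : ℝ) : 0 ≤ nd y := abs_nonneg _

theorem int_zero {m : ℤ} (h : |(m : ℝ)| < 1) : m = 0 := by
  have h1 : |m| < 1 := by exact_mod_cast h
  exact Int.abs_lt_one_iff.1 h1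

/-- Separated sets are small. -/
theorem sep_card (S : Finset ℕ) (X : ℕ) (ρ : ℝ) (hρ : 0 < ρ) (hS : ∀ y ∈ S, y ≤ X)
    (hsep : ∀ y ∈ S, ∀ y' ∈ S, y < y' → 1 ≤ 2 * ρ * ((y' : ℝ) - y)) :
    (S.card : ℝ) ≤ 1 + 2 * ρ * X := by
  have key : ∀ y ∈ S, ∀ y' ∈ S, y < y' → ⌊2 * ρ * (y : ℝ)⌋₊ < ⌊2 * ρ * (y' : ℝ)⌋₊ := by
    intro y hy y' hy' h
    have h1 := hsep y hy y' hy' h
    have h2 : (0 : ℝ) ≤ 2 * ρ * y := by positivity
    have h3 : ⌊2 * ρ * (y : ℝ) + 1⌋₊ = ⌊2 * ρ * (y : ℝ)⌋₊ + 1 := Nat.floor_add_one h2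
    have h4 : ⌊2 * ρ * (y : ℝ) + 1⌋₊ ≤ ⌊2 * ρ * (y' : ℝ)⌋₊ := Nat.floor_mono (by linarith)
    omega
  have h1 : S.card ≤ (range (⌊2 * ρ * (X : ℝ)⌋₊ + 1)).card := by
    apply card_le_card_of_injOn (fun y : ℕ => ⌊2 * ρ * (y : ℝ)⌋₊)
    · intro y hy
      have h2 : (y : ℝ) ≤ X := by exact_mod_cast hS y hy
      have h3 : ⌊2 * ρ * (y : ℝ)⌋₊ ≤ ⌊2 * ρ * (X : ℝ)⌋₊ :=
        Nat.floor_mono (mul_le_mul_of_nonneg_left h2 (by positivity))
      simp only [coe_range, Set.mem_Iio]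
      omega
    · intro y hy y' hy' he
      have he' : ⌊2 * ρ * (y : ℝ)⌋₊ = ⌊2 * ρ * (y' : ℝ)⌋₊ := he
      by_contra hne
      rcases lt_or_gt_of_ne hne with h | h
      · have := key y hy y' hy' h
        omega
      · have := key y' hy' y hy h
        omega
  rw [card_range] at h1
  have h2 : (S.card : ℝ) ≤ (⌊2 * ρ * (X : ℝ)⌋₊ : ℝ) + 1 := by exact_mod_cast h1
  have h3 : (⌊2 * ρ * (X : ℝ)⌋₊ : ℝ) ≤ 2 * ρ * X := Nat.floor_le (by positivity)
  linarith

/-- The combinatorial part. -/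
theorem core (θ η : ℝ) (X : ℕ) (hη : 0 < η) (hη4 : 4 * η < 1)
    (hpos : ∀ n : ℕ, 1 ≤ n → 0 < nd ((n : ℝ) * θ))
    (hne : ((Icc 1 X).filter (fun x : ℕ => nd ((x : ℝ) * θ) ≤ η)).Nonempty) :
    ∃ w : ℕ, 1 ≤ w ∧ w ≤ X ∧ nd ((w : ℝ) * θ) ≤ 2 * η ∧
      (((Icc 1 X).filter (fun x : ℕ => nd ((x : ℝ) * θ) ≤ η)).card : ℝ) ≤
        (2 + 2 * nd ((w : ℝ) * θ) * X) *
          (1 + min (2 * η / nd ((w : ℝ) * θ)) ((X : ℝ) / w)) := by
  set E : Finset ℕ := (Icc 1 X).filter (fun x : ℕ => nd ((x : ℝ) * θ) ≤ η) with hE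
  have memE : ∀ x, x ∈ E ↔ (1 ≤ x ∧ x ≤ X) ∧ nd ((x : ℝ) * θ) ≤ η := by
    intro x
    rw [hE, mem_filter, mem_Icc]
  obtain ⟨x0, hx0⟩ := hne
  have hex : ∃ w : ℕ, 1 ≤ w ∧ nd ((w : ℝ) * θ) ≤ 2 * η :=
    ⟨x0, ((memE x0).1 hx0).1.1, by linarith [((memE x0).1 hx0).2]⟩
  obtain ⟨w, ⟨hw1, hw2⟩, hmin⟩ : ∃ w : ℕ, (1 ≤ w ∧ nd ((w : ℝ) * θ) ≤ 2 * η) ∧
      ∀ u : ℕ, 1 ≤ u → nd ((u : ℝ) * θ) ≤ 2 * η → w ≤ u :=
    ⟨Nat.find hex, Nat.find_spec hex, fun u h1 h2 => Nat.find_min' hex ⟨h1, h2⟩⟩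
  have hwX : w ≤ X := le_trans (hmin x0 ((memE x0).1 hx0).1.1
    (by linarith [((memE x0).1 hx0).2])) ((memE x0).1 hx0).1.2
  refine ⟨w, hw1, hwX, hw2, ?_⟩
  obtain ⟨ρ, hρdef⟩ : ∃ ρ, ρ = nd ((w : ℝ) * θ) := ⟨_, rfl⟩
  rw [← hρdef] at hw2 ⊢
  have hρ : 0 < ρ := by rw [hρdef]; exact hpos w hw1
  have hwpos : (0 : ℝ) < w := by exact_mod_cast hw1
  -- the sign
  obtain ⟨σ, hσ, hσρ⟩ : ∃ σ : ℝ, (σ = 1 ∨ σ = -1) ∧
      σ * ((w : ℝ) * θ - round ((w : ℝ) * θ)) = ρ := by
    rcases le_total 0 ((w : ℝ) * θ - round ((w : ℝ) * θ)) with h | h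
    · exact ⟨1, Or.inl rfl, by rw [hρdef, one_mul]; exact (abs_of_nonneg h).symm⟩
    · exact ⟨-1, Or.inr rfl, by rw [hρdef]; unfold nd; rw [abs_of_nonpos h]; ring⟩
  have hσa : |σ| = 1 := by rcases hσ with h | h <;> rw [h] <;> simp
  have hσσ : σ * σ = 1 := by rcases hσ with h | h <;> rw [h] <;> norm_num
  obtain ⟨t, ht⟩ : ∃ t : ℕ → ℝ, ∀ x, t x = σ * ((x : ℝ) * θ - round ((x : ℝ) * θ)) :=
    ⟨_, fun _ => rfl⟩
  have hta : ∀ x, |t x| = nd ((x : ℝ) * θ) := by
    intro x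
    rw [ht, abs_mul, hσa, one_mul]
    rfl
  have htle : ∀ x ∈ E, -η ≤ t x ∧ t x ≤ η := by
    intro x hx
    have h := ((memE x).1 hx).2
    rw [← hta] at h
    exact abs_le.1 h
  -- one step down
  have step : ∀ x ∈ E, w < x → x - w ∈ E → t x - t (x - w) = ρ := by
    intro x hx hwx hxw
    have hc : ((x - w : ℕ) : ℝ) = (x : ℝ) - w := by
      rw [Nat.cast_sub hwx.le]
    obtain ⟨m, hm⟩ : ∃ m : ℤ, m = - round ((x : ℝ) * θ) + round (((x - w : ℕ) : ℝ) * θ) +
        round ((w : ℝ) * θ) := ⟨_, rfl⟩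
    have h1 : t x - t (x - w) - ρ = σ * m := by
      rw [hm, ← hσρ, ht, ht]
      push_cast
      rw [hc]
      ring
    have h2 := htle x hx
    have h3 := htle _ hxw
    have h4 : |σ * (m : ℝ)| < 1 := by
      rw [← h1, abs_lt]
      constructor <;> linarith
    rw [abs_mul, hσa, one_mul] at h4
    have h5 := int_zero h4
    rw [h5] at h1
    simp only [Int.cast_zero, mul_zero] at h1
    linarith
  -- the starts of the chains
  obtain ⟨S, hS⟩ : ∃ S : Finset ℕ, S = E.filter (fun y : ℕ => y ≤ w ∨ y - w ∉ E) := ⟨_, rfl⟩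
  have chain : ∀ x : ℕ, x ∈ E → ∃ y ∈ S, ∃ k : ℕ, x = y + k * w ∧ (k : ℝ) * ρ = t x - t y := by
    intro x
    induction x using Nat.strong_induction_on with
    | _ x ih =>
      intro hx
      by_cases hs : x ≤ w ∨ x - w ∉ E
      · refine ⟨x, ?_, 0, by simp, by simp⟩
        rw [hS, mem_filter]
        exact ⟨hx, hs⟩
      · push Not at hs
        obtain ⟨y, hy, k, hk, hkt⟩ := ih (x - w) (by omega) hs.2
        refine ⟨y, hy, k + 1, ?_, ?_⟩
        · rw [add_mul, one_mul]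
          omega
        · have h1 := step x hx hs.1 hs.2
          push_cast
          rw [add_mul, one_mul, hkt]
          linarith
  -- the length of a chain
  obtain ⟨L, hL⟩ : ∃ L : ℝ, L = min (2 * η / ρ) ((X : ℝ) / w) := ⟨_, rfl⟩
  rw [← hL]
  have hL0 : 0 ≤ L := by
    rw [hL]
    exact le_min (by positivity) (by positivity)
  have hcard : E.card ≤ (S ×ˢ range (⌊L⌋₊ + 1)).card := by
    have h1 : E ⊆ (S ×ˢ range (⌊L⌋₊ + 1)).image (fun z : ℕ × ℕ => z.1 + z.2 * w) := by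
      intro x hx
      obtain ⟨y, hy, k, hk, hkt⟩ := chain x hx
      rw [mem_image]
      refine ⟨(y, k), ?_, hk.symm⟩
      rw [mem_product]
      refine ⟨hy, ?_⟩
      have hyE : y ∈ E := by
        rw [hS, mem_filter] at hy
        exact hy.1
      have h2 := htle x hx
      have h3 := htle y hyE
      have h4 : (k : ℝ) ≤ L := by
        rw [hL]
        apply le_min
        · rw [le_div_iff₀ hρ, hkt]
          linarith
        · rw [le_div_iff₀ hwpos]
          have h5 : k * w ≤ X := by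
            have := ((memE x).1 hx).1.2
            omega
          exact_mod_cast h5
      show k ∈ range (⌊L⌋₊ + 1)
      rw [mem_range]
      have := Nat.le_floor h4
      omega
    exact le_trans (card_le_card h1) card_image_le
  rw [card_product, card_range] at hcard
  -- the number of the starts
  have hScard : (S.card : ℝ) ≤ 2 + 2 * ρ * X := by
    have h1 : S ⊆ insert w (S.filter (fun y : ℕ => w < y)) := by
      intro y hy
      rw [mem_insert, mem_filter]
      by_cases h : w < y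
      · exact Or.inr ⟨hy, h⟩
      · left
        have hyE : y ∈ E := by
          rw [hS, mem_filter] at hy
          exact hy.1
        have h2 := (memE y).1 hyE
        have h3 := hmin y h2.1.1 (by linarith [h2.2])
        omega
    have h2 : S.card ≤ (S.filter (fun y : ℕ => w < y)).card + 1 :=
      le_trans (card_le_card h1) (card_insert_le _ _)
    have low : ∀ y ∈ S, w < y → t y < -η + ρ := by
      intro y hy hwy
      rw [hS, mem_filter] at hy
      have h3 : y - w ∉ E := by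
        rcases hy.2 with h | h
        · omega
        · exact h
      by_contra hcon
      push Not at hcon
      apply h3
      rw [memE]
      have h4 := (memE y).1 hy.1
      refine ⟨⟨by omega, by omega⟩, ?_⟩
      have hc : ((y - w : ℕ) : ℝ) = (y : ℝ) - w := by
        rw [Nat.cast_sub hwy.le]
      have h5 := nd_le (((y - w : ℕ) : ℝ) * θ) (round ((y : ℝ) * θ) - round ((w : ℝ) * θ))
      have h6 : |((y - w : ℕ) : ℝ) * θ - ((round ((y : ℝ) * θ) - round ((w : ℝ) * θ) : ℤ) : ℝ)| =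
          |t y - ρ| := by
        rw [← one_mul (|((y - w : ℕ) : ℝ) * θ -
          ((round ((y : ℝ) * θ) - round ((w : ℝ) * θ) : ℤ) : ℝ)|), ← hσa, ← abs_mul, ← hσρ, ht, hc]
        congr 1
        push_cast
        ring
      rw [h6] at h5
      refine le_trans h5 ?_
      have h7 := htle y hy.1
      rw [abs_le]
      constructor <;> linarith
    have h3 : ((S.filter (fun y : ℕ => w < y)).card : ℝ) ≤ 1 + 2 * ρ * X := by
      apply sep_card _ X ρ hρ
      · intro y hy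
        rw [mem_filter, hS, mem_filter] at hy
        exact ((memE y).1 hy.1.1).1.2
      · intro y hy y' hy' hlt
        rw [mem_filter] at hy hy'
        have hyE : y ∈ E := by
          have := hy.1
          rw [hS, mem_filter] at this
          exact this.1
        have hyE' : y' ∈ E := by
          have := hy'.1
          rw [hS, mem_filter] at this
          exact this.1
        have l1 := low y hy.1 hy.2
        have l2 := low y' hy'.1 hy'.2
        have g1 := htle y hyE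
        have g2 := htle y' hyE'
        obtain ⟨u, hu⟩ : ∃ u : ℕ, u = y' - y := ⟨_, rfl⟩
        have hu1 : 1 ≤ u := by omega
        have huc : (u : ℝ) = (y' : ℝ) - y := by
          rw [hu, Nat.cast_sub hlt.le]
        obtain ⟨τ, hτ⟩ : ∃ τ : ℝ, τ = t y' - t y := ⟨_, rfl⟩
        have hτa : |τ| < ρ := by
          rw [hτ, abs_lt]
          constructor <;> linarith
        have huθ : (u : ℝ) * θ - ((round ((y' : ℝ) * θ) - round ((y : ℝ) * θ) : ℤ) : ℝ) =
            σ * τ := by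
          rw [hτ, ht, ht, huc, ← mul_sub, ← mul_assoc, hσσ]
          push_cast
          ring
        have hwu : w ≤ u := by
          apply hmin u hu1
          have h5 := nd_le ((u : ℝ) * θ) (round ((y' : ℝ) * θ) - round ((y : ℝ) * θ))
          rw [huθ, abs_mul, hσa, one_mul] at h5
          linarith
        have hwθ : (w : ℝ) * θ - round ((w : ℝ) * θ) = σ * ρ := by
          rw [← hσρ, ← mul_assoc, hσσ, one_mul]
        obtain ⟨m, hm⟩ : ∃ m : ℤ, m = (u : ℤ) * round ((w : ℝ) * θ) -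
            (w : ℤ) * (round ((y' : ℝ) * θ) - round ((y : ℝ) * θ)) := ⟨_, rfl⟩
        have hmr : (m : ℝ) = σ * (w * τ - u * ρ) := by
          have e1 : (round ((w : ℝ) * θ) : ℝ) = (w : ℝ) * θ - σ * ρ := by linarith
          have e2 : ((round ((y' : ℝ) * θ) - round ((y : ℝ) * θ) : ℤ) : ℝ) =
              (u : ℝ) * θ - σ * τ := by linarith
          rw [hm]
          push_cast at e2 ⊢
          rw [e1, e2]
          ring
        have hwuR : (w : ℝ) ≤ u := by exact_mod_cast hwu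
        have hupos : (0 : ℝ) < u := by linarith
        have e3 : |(w : ℝ) * τ| < u * ρ := by
          rw [abs_mul, abs_of_pos hwpos]
          calc (w : ℝ) * |τ| < w * ρ := mul_lt_mul_of_pos_left hτa hwpos
            _ ≤ u * ρ := mul_le_mul_of_nonneg_right hwuR hρ.le
        have e4 := abs_lt.1 e3
        have hm0 : m ≠ 0 := by
          intro h0
          rw [h0, Int.cast_zero] at hmr
          have e5 : σ * (σ * ((w : ℝ) * τ - u * ρ)) = 0 := by rw [← hmr, mul_zero]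
          rw [← mul_assoc, hσσ, one_mul] at e5
          linarith
        have e6 : (1 : ℝ) ≤ |(m : ℝ)| := by
          have := Int.one_le_abs hm0
          exact_mod_cast this
        rw [hmr, abs_mul, hσa, one_mul] at e6
        have e7 : |(w : ℝ) * τ - u * ρ| ≤ 2 * ρ * u := by
          rw [abs_le]
          constructor <;> nlinarith
        rw [← huc]
        linarith
    have h4 : (S.card : ℝ) ≤ ((S.filter (fun y : ℕ => w < y)).card : ℝ) + 1 := by
      exact_mod_cast h2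
    linarith
  have h5 : (E.card : ℝ) ≤ (S.card : ℝ) * ((⌊L⌋₊ : ℝ) + 1) := by exact_mod_cast hcard
  have h6 : (⌊L⌋₊ : ℝ) ≤ L := Nat.floor_le hL0
  calc (E.card : ℝ) ≤ (S.card : ℝ) * ((⌊L⌋₊ : ℝ) + 1) := h5
    _ ≤ (2 + 2 * ρ * X) * (1 + L) := by
      apply mul_le_mul hScard (by linarith) (by positivity) (by positivity)

theorem lat : LatStmt := by
  intro ξ hξ δ hδ
  obtain ⟨c, hc, hR⟩ := hξ δ hδ
  refine ⟨8 + 6 / √c, by positivity, ?_⟩
  intro s X η hs hX hη
  obtain ⟨B, hB⟩ : ∃ B : ℝ, B = η * ((s : ℝ) * X) ^ (1 + δ) := ⟨_, rfl⟩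
  have hsR : (1 : ℝ) ≤ s := by exact_mod_cast hs
  have hXR : (1 : ℝ) ≤ X := by exact_mod_cast hX
  have hB0 : 0 < B := by rw [hB]; positivity
  rw [← hB, ← Real.sqrt_eq_rpow]
  have hC : (0 : ℝ) < 8 + 6 / √c := by positivity
  have hsq : 0 ≤ √B := Real.sqrt_nonneg _
  have h60 : 0 < 6 / √c := by positivity
  rcases le_or_gt 1 (4 * η) with h4 | h4
  · have h1 : ((Icc 1 X).filter (fun x : ℕ => nd ((x : ℝ) * (s * ξ)) ≤ η)).card ≤ X := by
      refine le_trans (card_filter_le _ _) ?_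
      rw [Nat.card_Icc]
      omega
    have h2 : (((Icc 1 X).filter (fun x : ℕ => nd ((x : ℝ) * (s * ξ)) ≤ η)).card : ℝ) ≤ X := by
      exact_mod_cast h1
    have h3 : (X : ℝ) ≤ 8 * (η * X) := by nlinarith
    have h5 : 8 * (η * X) ≤ (8 + 6 / √c) * (η * X + √B) := by
      have h6 : 0 ≤ η * X := by positivity
      nlinarith [mul_nonneg h60.le h6, mul_nonneg hC.le hsq]
    linarith
  rcases Finset.eq_empty_or_nonempty
      ((Icc 1 X).filter (fun x : ℕ => nd ((x : ℝ) * (s * ξ)) ≤ η)) with he | hne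
  · rw [he]
    simp only [card_empty, Nat.cast_zero]
    positivity
  have hRoth : ∀ x : ℕ, 1 ≤ x → c * ((s : ℝ) * x) ^ (-(1 + δ)) ≤ nd ((x : ℝ) * (s * ξ)) := by
    intro x hx
    have h1 := hR (s * x) (Nat.mul_pos hs hx)
    push_cast at h1
    rw [show (x : ℝ) * (s * ξ) = (s : ℝ) * x * ξ by ring]
    exact h1
  have hpos : ∀ x : ℕ, 1 ≤ x → 0 < nd ((x : ℝ) * (s * ξ)) := by
    intro x hx
    have hx' : (0 : ℝ) < x := by exact_mod_cast hx
    exact lt_of_lt_of_le (by positivity) (hRoth x hx)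
  -- `c ≤ B`
  have hcB : c ≤ B := by
    obtain ⟨x, hx⟩ := hne
    rw [mem_filter, mem_Icc] at hx
    have hx' : (0 : ℝ) < x := by exact_mod_cast hx.1.1
    have h1 := le_trans (hRoth x hx.1.1) hx.2
    rw [Real.rpow_neg (by positivity), ← div_eq_mul_inv, div_le_iff₀ (by positivity)] at h1
    refine le_trans h1 ?_
    rw [hB]
    apply mul_le_mul_of_nonneg_left _ hη.le
    apply Real.rpow_le_rpow (by positivity) _ (by linarith)
    have h2 : (x : ℝ) ≤ X := by exact_mod_cast hx.1.2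
    exact mul_le_mul_of_nonneg_left h2 (by linarith)
  obtain ⟨w, hw1, hwX, hw2, hcard⟩ := core (s * ξ) η X hη h4 hpos hne
  obtain ⟨ρ, hρdef⟩ : ∃ ρ, ρ = nd ((w : ℝ) * (s * ξ)) := ⟨_, rfl⟩
  rw [← hρdef] at hcard hw2
  have hρ : 0 < ρ := by rw [hρdef]; exact hpos w hw1
  have hw' : (0 : ℝ) < w := by exact_mod_cast hw1
  have hwXR : (w : ℝ) ≤ X := by exact_mod_cast hwX
  obtain ⟨L, hL⟩ : ∃ L : ℝ, L = min (2 * η / ρ) ((X : ℝ) / w) := ⟨_, rfl⟩
  rw [← hL] at hcard
  have hL1 : L ≤ 2 * η / ρ := by rw [hL]; exact min_le_left _ _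
  have hL2 : L ≤ (X : ℝ) / w := by rw [hL]; exact min_le_right _ _
  have hL0 : 0 ≤ L := by rw [hL]; exact le_min (by positivity) (by positivity)
  -- `ρ w` is not small
  have hρw : c ≤ ρ * w * ((s : ℝ) ^ (1 + δ) * (X : ℝ) ^ δ) := by
    have h1 := hRoth w hw1
    rw [← hρdef, Real.rpow_neg (by positivity), ← div_eq_mul_inv,
      div_le_iff₀ (by positivity)] at h1
    refine le_trans h1 ?_
    rw [Real.mul_rpow (by positivity) (by positivity), Real.rpow_add hw' 1 δ, Real.rpow_one]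
    have h2 : (w : ℝ) ^ δ ≤ (X : ℝ) ^ δ := Real.rpow_le_rpow hw'.le hwXR hδ.le
    have h3 : ρ * ((s : ℝ) ^ (1 + δ) * (w * (w : ℝ) ^ δ)) =
        (ρ * w * (s : ℝ) ^ (1 + δ)) * (w : ℝ) ^ δ := by ring
    have h4 : ρ * w * ((s : ℝ) ^ (1 + δ) * (X : ℝ) ^ δ) =
        (ρ * w * (s : ℝ) ^ (1 + δ)) * (X : ℝ) ^ δ := by ring
    rw [h3, h4]
    exact mul_le_mul_of_nonneg_left h2 (by positivity)
  have hLB : L ≤ √(2 * B / c) := by
    apply Real.le_sqrt_of_sq_le
    have h1 : L ^ 2 ≤ (2 * η / ρ) * ((X : ℝ) / w) := by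
      rw [sq]
      exact mul_le_mul hL1 hL2 hL0 (by positivity)
    refine le_trans h1 ?_
    rw [div_mul_div_comm, div_le_div_iff₀ (by positivity) hc]
    have h2 : B = η * X * ((s : ℝ) ^ (1 + δ) * (X : ℝ) ^ δ) := by
      have h20 : (X : ℝ) ^ (1 + δ) = X * (X : ℝ) ^ δ := by
        rw [Real.rpow_add (by linarith : (0 : ℝ) < X) 1 δ, Real.rpow_one]
      rw [hB, Real.mul_rpow (by positivity) (by positivity), h20]
      ring
    rw [h2]
    have h3 : 0 ≤ 2 * η * X := by positivity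
    nlinarith [mul_le_mul_of_nonneg_left hρw h3]
  have hsc : 0 < √c := Real.sqrt_pos.2 hc
  have h1B : 1 ≤ √(B / c) := by
    rw [Real.one_le_sqrt, le_div_iff₀ hc]
    linarith
  have h2B : √(2 * B / c) ≤ 2 * √(B / c) := by
    apply Real.sqrt_le_iff.2
    constructor
    · positivity
    · rw [mul_pow, Real.sq_sqrt (by positivity)]
      have : 0 < B / c := by positivity
      have h3 : 2 * B / c = 2 * (B / c) := by ring
      rw [h3]
      linarith
  have hBc : √(B / c) = √B / √c := Real.sqrt_div hB0.le c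
  have hfin : (2 + 2 * ρ * X) * (1 + L) ≤ 8 * (η * X) + 6 * √(B / c) := by
    have e1 : ρ * L ≤ 2 * η := by
      have := mul_le_mul_of_nonneg_left hL1 hρ.le
      rwa [mul_div_cancel₀ _ hρ.ne'] at this
    have e2 : ρ * L * X ≤ 2 * η * X := mul_le_mul_of_nonneg_right e1 (by linarith)
    have e3 : ρ * X ≤ 2 * η * X := mul_le_mul_of_nonneg_right hw2 (by linarith)
    have e4 : L ≤ 2 * √(B / c) := le_trans hLB h2B
    nlinarith
  have hlast : 8 * (η * X) + 6 * √(B / c) ≤ (8 + 6 / √c) * (η * X + √B) := by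
    rw [hBc]
    have e1 : 6 * (√B / √c) = 6 / √c * √B := by ring
    rw [e1]
    have e2 : 0 ≤ η * X := by positivity
    nlinarith [mul_nonneg h60.le e2]
  linarith

end Pool.Agent.Helper61.MD
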